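import Pool.Agent.P.MP_aa79fc_nt.Main

/-!
Words of length `k` are maps `u : Fin k → Fin 3`, with the letters coded as 0 = x, 1 = y, 2 = z.
The indeterminate q is `RatFunc.X`.
-/

open Finset

namespace Pool.Agent.Results.MP_aa79fc_nt.QInversion

/-- `a_j`: the number of positions `h ≤ j` carrying the letter y. -/
def aCount {k : ℕ} (u : Fin k → Fin 3) (j : Fin k) : ℕ :=
  (univ.filter fun h : Fin k => h ≤ j ∧ u h = 1).card

/-- `b_j`: the number of positions `h ≥ j` carrying the letter x. -/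
def bCount {k : ℕ} (u : Fin k → Fin 3) (j : Fin k) : ℕ :=
  (univ.filter fun h : Fin k => j ≤ h ∧ u h = 0).card

open scoped Classical in
/-- The sum `Z_{N,q}(w)` over `0 ≤ n_1 ≤ ⋯ ≤ n_k ≤ N`. -/
noncomputable def Z (N : ℕ) {k : ℕ} (u : Fin k → Fin 3) : RatFunc ℚ :=
  ∑ n ∈ univ.filter (fun n : Fin k → Fin (N + 1) => Monotone n),
    (∏ j ∈ univ.filter (fun j => u j = 0),
        1 / (1 - (RatFunc.X : RatFunc ℚ) ^ (((n j).val : ℤ) + (aCount u j : ℤ)))) *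
    (∏ j ∈ univ.filter (fun j => u j = 1),
        -1 / (1 - (RatFunc.X : RatFunc ℚ) ^ (((n j).val : ℤ) - (N : ℤ) - (bCount u j : ℤ)))) *
    (∏ j ∈ univ.filter (fun j => u j = 2),
        (1 / (1 - (RatFunc.X : RatFunc ℚ) ^ (((n j).val : ℤ) + (aCount u j : ℤ))) -
          1 / (1 - (RatFunc.X : RatFunc ℚ) ^ (((n j).val : ℤ) - (N : ℤ) - (bCount u j : ℤ)))))

theorem result (N k : ℕ) (u : Fin k → Fin 3)
    (hfirst : ∀ j : Fin k, j.val = 0 → u j = 1) (hlast : ∀ j : Fin k, j.val + 1 = k → u j = 0)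
    (σ : RatFunc ℚ ≃+* RatFunc ℚ) (hσ : σ RatFunc.X = RatFunc.X⁻¹) :
    σ (Z N u) = (-1) ^ k * Z N u := by
  have hX : ∀ m : ℕ, 0 < m → 1 - (RatFunc.X : RatFunc ℚ) ^ m ≠ 0 := by
    intro m hm h
    have h1 : algebraMap (Polynomial ℚ) (RatFunc ℚ) (1 - Polynomial.X ^ m) = 0 := by
      simpa using h
    have h2 : (1 - Polynomial.X ^ m : Polynomial ℚ) = 0 :=
      (map_eq_zero_iff _ (RatFunc.algebraMap_injective ℚ)).1 h1
    have h3 := congrArg (Polynomial.eval 0) h2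
    simp [hm.ne'] at h3
  have hZ : Z N u = Pool.Agent.P.MP_aa79fc_nt.Zg RatFunc.X N 0 u 0 := by
    unfold Z Pool.Agent.P.MP_aa79fc_nt.Zg
    refine sum_congr (by ext n; simp) fun n _ => ?_
    simp only [prod_filter, ← prod_mul_distrib]
    refine prod_congr rfl fun j _ => ?_
    have hc : u j = 0 ∨ u j = 1 ∨ u j = 2 := by omega
    unfold Pool.Agent.P.MP_aa79fc_nt.Fac
    rcases hc with h | h | h <;>
      simp [h, aCount, bCount, Pool.Agent.P.MP_aa79fc_nt.cA, Pool.Agent.P.MP_aa79fc_nt.cB]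
  rw [hZ, ← Pool.Agent.P.MP_aa79fc_nt.final RatFunc.X_ne_zero hX N k u hfirst hlast]
  unfold Pool.Agent.P.MP_aa79fc_nt.Zg
  rw [map_sum]
  refine sum_congr rfl fun n _ => ?_
  rw [map_prod]
  refine prod_congr rfl fun j _ => ?_
  unfold Pool.Agent.P.MP_aa79fc_nt.Fac
  split_ifs <;> simp [hσ]

end Pool.Agent.Results.MP_aa79fc_nt.QInversion
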